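import Pool.Agent.helper26.EC.SpecW
import Pool.Agent.helper39.EC.CM0

/-! # Project EC (MP_5628fe_nt), row CM1 -/

set_option autoImplicit false

namespace Pool.Agent.EC

open Finset ArithmeticFunction
open Pool.Agent.CH (Win)

/-- a family of tuples of prime factors gives a lower bound of `TS` -/
theorem CM1_sum (N a r : ℕ) (hN : 2 ≤ N) (ha : N ^ 3 < a) (hsq : Squarefree a) (hcard : #a.primeFactors = r + 1)
    (h4 : 4 ≤ r) (hr : r ≤ 9) (b : Bool) (T : Finset (Fin r ↪ a.primeFactors)) (ω : ℝ)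
    (hJ : ∀ e ∈ T, (fun i => CM0_ce N (e i : ℕ)) ∈ JJ b r)
    (hω : ∀ e ∈ T, ω ≤ om b r (∑ i, CM0_ce N (e i : ℕ))) :
    (#T : ℝ) * ω ≤ TS N a := by
  classical
  refine le_trans ?_ (CM0_TS_ge N hN a b r h4 hr)
  have hL : 0 < Real.log N := Real.log_pos (by exact_mod_cast hN)
  have hN0 : (0 : ℝ) < N := by positivity
  let J : (Fin r ↪ a.primeFactors) → (Fin r → ℕ) := fun e i => CM0_ce N (e i : ℕ)
  let φ : (Fin r ↪ a.primeFactors) ↪ (Fin r → ℕ) := ⟨fun e i => (e i : ℕ), fun e e' h => by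
    ext i
    exact congrFun h i⟩
  have hTL : ∀ j ∈ JJ b r, ∑ e ∈ T with J e = j,
      vonMangoldt (a / ∏ i, (e i : ℕ)) ≤ TL N (aJ j) (bJ j) a := by
    intro j _
    have h1 : ∑ e ∈ T with J e = j, vonMangoldt (a / ∏ i, (e i : ℕ)) =
        ∑ p ∈ (T.filter fun e => J e = j).map φ, vonMangoldt (a / ∏ i, p i) := by
      rw [Finset.sum_map]
      rfl
    rw [h1]
    unfold TL
    refine Finset.sum_le_sum_of_subset_of_nonneg ?_ fun _ _ _ => vonMangoldt_nonneg
    intro p hp
    obtain ⟨e, he, rfl⟩ := Finset.mem_map.mp hp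
    have he' : J e = j := (Finset.mem_filter.mp he).2
    refine Finset.mem_filter.mpr ⟨?_, ?_, ?_⟩
    · rw [Fintype.mem_piFinset]
      intro i
      exact (e i).2
    · intro i
      have hq1 : 1 ≤ (e i : ℕ) := (Nat.prime_of_mem_primeFactors (e i).2).one_le
      have h2 := CM0_cell N (e i) hN hq1
      have h3 : j i = CM0_ce N (e i) := by rw [← he']
      unfold aJ bJ
      rw [h3]
      exact h2
    · obtain ⟨P, _, hP⟩ := CM0_rem a r hsq hcard a.primeFactors (Finset.Subset.refl _) e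
      exact ⟨P, hP⟩
  have hterm : ∀ e ∈ T, ω ≤ om b r (∑ i, J e i) * ph r (∑ i, J e i) / (3 * Real.log N) *
      vonMangoldt (a / ∏ i, (e i : ℕ)) := by
    intro e heT
    obtain ⟨P, hPm, hP⟩ := CM0_rem a r hsq hcard a.primeFactors (Finset.Subset.refl _) e
    have hPp := Nat.prime_of_mem_primeFactors hPm
    have hpos : ∀ i, 0 < (e i : ℕ) := fun i => (Nat.prime_of_mem_primeFactors (e i).2).pos
    have hprod : 0 < ∏ i, (e i : ℕ) := Finset.prod_pos fun i _ => hpos i
    have h1 : a / ∏ i, (e i : ℕ) = P := by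
      have h2 : a / ∏ i, (e i : ℕ) = ((∏ i, (e i : ℕ)) * P) / ∏ i, (e i : ℕ) :=
        congrArg (fun z => z / ∏ i, (e i : ℕ)) hP
      rw [h2]
      exact Nat.mul_div_cancel_left P hprod
    have h1' : vonMangoldt (a / ∏ i, (e i : ℕ)) = Real.log P := by
      rw [h1]
      exact vonMangoldt_apply_prime hPp
    rw [h1']
    have hlog : Real.log a = ∑ i, Real.log ((e i : ℕ) : ℝ) + Real.log P := by
      have h2 : Real.log a = Real.log (((∏ i, (e i : ℕ)) * P : ℕ) : ℝ) :=
        congrArg (fun z : ℕ => Real.log (z : ℝ)) hP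
      rw [h2, Nat.cast_mul, Nat.cast_prod, Real.log_mul
        (Finset.prod_ne_zero_iff.mpr fun i _ => by exact_mod_cast (hpos i).ne') (by exact_mod_cast hPp.ne_zero)]
      rw [Real.log_prod (fun i _ => by exact_mod_cast (hpos i).ne')]
    have hloga : 3 * Real.log N ≤ Real.log a := by
      have h3 : (3 : ℝ) * Real.log N = Real.log ((N : ℝ) ^ 3) := by
        rw [Real.log_pow]; norm_num
      rw [h3]
      apply Real.log_le_log (by positivity)
      exact_mod_cast ha.le
    have hle : ∑ i, Real.log ((e i : ℕ) : ℝ) ≤ 3 * Real.log N * ((∑ i, J e i : ℕ) + r) / 962 := by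
      have h5 : ∀ i, Real.log ((e i : ℕ) : ℝ) ≤ 3 * Real.log N * ((J e i : ℝ) + 1) / 962 := by
        intro i
        have h2 := (CM0_cell N (e i) hN (hpos i)).2.le
        have hq0 : (0 : ℝ) < ((e i : ℕ) : ℝ) := by exact_mod_cast hpos i
        have h6 := Real.log_le_log hq0 h2
        rw [Real.log_rpow hN0] at h6
        calc Real.log ((e i : ℕ) : ℝ) ≤ _ := h6
          _ = 3 * Real.log N * ((J e i : ℝ) + 1) / 962 := by ring
      calc ∑ i, Real.log ((e i : ℕ) : ℝ) ≤ ∑ i, 3 * Real.log N * ((J e i : ℝ) + 1) / 962 :=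
            Finset.sum_le_sum fun i _ => h5 i
        _ = _ := by
            rw [← Finset.sum_div, ← Finset.mul_sum, Finset.sum_add_distrib]
            simp
    have hs : ∑ i, J e i ≤ 861 := CM0_JJ_sum (hJ e heT)
    have hs' : ((∑ i, J e i : ℕ) : ℝ) ≤ 861 := by exact_mod_cast hs
    have hr' : (r : ℝ) ≤ 9 := by exact_mod_cast hr
    have hden : 0 < 962 - ((∑ i, J e i : ℕ) : ℝ) - r := by linarith
    have hP1 : 3 * Real.log N * (962 - ((∑ i, J e i : ℕ) : ℝ) - r) / 962 ≤ Real.log P := by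
      have h7 : 3 * Real.log N * (962 - ((∑ i, J e i : ℕ) : ℝ) - r) / 962 =
          3 * Real.log N - 3 * Real.log N * (((∑ i, J e i : ℕ) : ℝ) + r) / 962 := by ring
      rw [h7]
      linarith
    have hom := hω e heT
    have hom0 := CM0_om_nonneg b r (∑ i, J e i)
    have h8 : 1 ≤ ph r (∑ i, J e i) / (3 * Real.log N) * Real.log P := by
      have h9 : ph r (∑ i, J e i) / (3 * Real.log N) *
          (3 * Real.log N * (962 - ((∑ i, J e i : ℕ) : ℝ) - r) / 962) = 1 := by
        unfold ph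
        field_simp
      rw [← h9]
      refine mul_le_mul_of_nonneg_left hP1 ?_
      have := (CM0_ph_pos r (∑ i, J e i) hr hs).le
      positivity
    calc ω ≤ om b r (∑ i, J e i) * 1 := by rw [mul_one]; exact hom
      _ ≤ om b r (∑ i, J e i) * (ph r (∑ i, J e i) / (3 * Real.log N) * Real.log P) :=
          mul_le_mul_of_nonneg_left h8 hom0
      _ = _ := by ring
  calc (#T : ℝ) * ω = ∑ e ∈ T, ω := by
        rw [Finset.sum_const, nsmul_eq_mul]
    _ ≤ ∑ e ∈ T, om b r (∑ i, J e i) * ph r (∑ i, J e i) / (3 * Real.log N) *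
          vonMangoldt (a / ∏ i, (e i : ℕ)) := Finset.sum_le_sum fun e he => hterm e he
    _ = ∑ j ∈ JJ b r, ∑ e ∈ T with J e = j,
          om b r (∑ i, J e i) * ph r (∑ i, J e i) / (3 * Real.log N) *
            vonMangoldt (a / ∏ i, (e i : ℕ)) :=
        (Finset.sum_fiberwise_of_maps_to (fun e he => hJ e he) _).symm
    _ ≤ ∑ j ∈ JJ b r, om b r (∑ i, j i) * ph r (∑ i, j i) / (3 * Real.log N) *
          TL N (aJ j) (bJ j) a := by
        refine Finset.sum_le_sum fun j hj => ?_
        have h1 : ∑ e ∈ T with J e = j,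
            om b r (∑ i, J e i) * ph r (∑ i, J e i) / (3 * Real.log N) *
              vonMangoldt (a / ∏ i, (e i : ℕ)) =
            om b r (∑ i, j i) * ph r (∑ i, j i) / (3 * Real.log N) *
              ∑ e ∈ T with J e = j, vonMangoldt (a / ∏ i, (e i : ℕ)) := by
          rw [Finset.mul_sum]
          refine Finset.sum_congr rfl fun e he => ?_
          rw [(Finset.mem_filter.mp he).2]
        rw [h1]
        refine mul_le_mul_of_nonneg_left (hTL j hj) ?_
        have h2 := CM0_om_nonneg b r (∑ i, j i)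
        have h3 := (CM0_ph_pos r (∑ i, j i) hr (CM0_JJ_sum hj)).le
        positivity

/-- the tuples with first entry `q₀` -/
def CM1_G {S U : Finset ℕ} {q₀ : ℕ} (s : ℕ) (hq : q₀ ∈ S) (hU : U ⊆ S.erase q₀) (e : Fin s ↪ U) : Fin (s + 1) ↪ S :=
  ⟨Fin.cons ⟨q₀, hq⟩ fun i => ⟨(e i : ℕ), Finset.mem_of_mem_erase (hU (e i).2)⟩, by
    rw [Fin.cons_injective_iff]
    constructor
    · rintro ⟨i, hi⟩
      have h1 : (e i : ℕ) = q₀ := congrArg (fun z : S => (z : ℕ)) hi
      exact (Finset.ne_of_mem_erase (hU (e i).2)) h1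
    · intro i i' h
      have h1 : (e i : ℕ) = (e i' : ℕ) := congrArg (fun z : S => (z : ℕ)) h
      exact e.injective (Subtype.ext h1)⟩

theorem CM1_G_zero {S U : Finset ℕ} {q₀ : ℕ} (s : ℕ) (hq : q₀ ∈ S) (hU : U ⊆ S.erase q₀) (e : Fin s ↪ U) :
    ((CM1_G s hq hU e 0 : S) : ℕ) = q₀ := rfl

theorem CM1_G_succ {S U : Finset ℕ} {q₀ : ℕ} (s : ℕ) (hq : q₀ ∈ S) (hU : U ⊆ S.erase q₀) (e : Fin s ↪ U) (i : Fin s) :
    ((CM1_G s hq hU e i.succ : S) : ℕ) = (e i : ℕ) := rfl

theorem CM1_G_inj {S U : Finset ℕ} {q₀ : ℕ} (s : ℕ) (hq : q₀ ∈ S) (hU : U ⊆ S.erase q₀) :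
    Function.Injective (CM1_G (U := U) s hq hU) := by
  intro e e' h
  ext i
  have h1 : ((CM1_G s hq hU e i.succ : S) : ℕ) = ((CM1_G s hq hU e' i.succ : S) : ℕ) := by rw [h]
  rw [CM1_G_succ, CM1_G_succ] at h1
  exact h1

/-- the count with first entry `q₀` -/
theorem CM1_count (N a s q₀ : ℕ) (hN : 2 ≤ N) (ha : N ^ 3 < a) (hsq : Squarefree a)
    (hcard : #a.primeFactors = s + 1 + 1) (h4 : 3 ≤ s) (hr : s ≤ 8) (hq : q₀ ∈ a.primeFactors)
    (U : Finset ℕ) (hU : U ⊆ a.primeFactors.erase q₀) (ω : ℝ)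
    (hc0 : 30 ≤ CM0_ce N q₀ ∧ CM0_ce N q₀ < 101)
    (hcell : ∀ q ∈ U, 100 ≤ CM0_ce N q ∧ CM0_ce N q < 481)
    (hσ : ∀ e : Fin s ↪ U, ∑ i, CM0_ce N (CM1_G s hq hU e i : ℕ) ≤ 861 ∧
      ω ≤ om true (s + 1) (∑ i, CM0_ce N (CM1_G s hq hU e i : ℕ))) :
    (Fintype.card (Fin s ↪ U) : ℝ) * ω ≤ TS N a := by
  classical
  set T : Finset (Fin (s + 1) ↪ a.primeFactors) := univ.image (CM1_G s hq hU) with hT
  have hTc : #T = Fintype.card (Fin s ↪ U) := by
    rw [hT, Finset.card_image_of_injective _ (CM1_G_inj s hq hU), Finset.card_univ]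
  rw [← hTc]
  refine CM1_sum N a (s + 1) hN ha hsq hcard (by omega) (by omega) true T ω ?_ ?_
  · intro e he
    obtain ⟨e', _, rfl⟩ := Finset.mem_image.mp he
    unfold JJ
    refine Finset.mem_filter.mpr ⟨?_, (hσ e').1⟩
    rw [Fintype.mem_piFinset]
    intro i
    refine Fin.cases ?_ (fun i => ?_) i
    · have h2 : true = true ∧ (0 : Fin (s + 1)).val = 0 := ⟨rfl, rfl⟩
      rw [if_pos h2, Finset.mem_Ico]
      exact hc0
    · have h2 : ¬ (true = true ∧ (Fin.succ i).val = 0) := by simp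
      rw [if_neg h2, Finset.mem_Ico]
      exact hcell (e' i) (e' i).2
  · intro e he
    obtain ⟨e', _, rfl⟩ := Finset.mem_image.mp he
    exact (hσ e').2

/-- CM1. -/
theorem CM1 : CM1_stmt := by
  classical
  refine ⟨10 ^ 7, fun N hN a q₀ ha1 ha2 hsq hq0 hz hy hq hk => ?_⟩
  have hN2 : 2 ≤ N := by omega
  have hL : 0 < Real.log N := Real.log_pos (by exact_mod_cast hN2)
  have hN0 : (0 : ℝ) < N := by
    have : 0 < N := by omega
    exact_mod_cast this
  have hlg := CM0_log N hN
  have hpos : ∀ q ∈ a.primeFactors, 0 < q := fun q h => (Nat.prime_of_mem_primeFactors h).pos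
  have hone : ∀ q ∈ a.primeFactors, 1 ≤ q := fun q h => (Nat.prime_of_mem_primeFactors h).one_le
  have hay : ay = 311875 / 1000000 := by
    unfold ay
    norm_num
  have haz : az = 935625 / 10000000 := by
    unfold az
    norm_num
  set W := a.primeFactors.erase q₀ with hW
  have hWS : W ⊆ a.primeFactors := Finset.erase_subset _ _
  have hlq : ∀ q ∈ W, ay * Real.log N ≤ Real.log q := by
    intro q h
    have h1 := Real.log_le_log (Real.rpow_pos_of_pos hN0 _) (hq q (hWS h) (Finset.ne_of_mem_erase h))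
    rwa [Real.log_rpow hN0] at h1
  have hl0 : az * Real.log N ≤ Real.log q₀ := by
    have h1 := Real.log_le_log (Real.rpow_pos_of_pos hN0 _) hz
    rwa [Real.log_rpow hN0] at h1
  have hq0pos : (0 : ℝ) < q₀ := by exact_mod_cast hpos q₀ hq0
  have hl1 : Real.log q₀ < ay * Real.log N := by
    have h1 := Real.log_lt_log hq0pos hy
    rwa [Real.log_rpow hN0] at h1
  have hloga : Real.log a = ∑ q ∈ W, Real.log q + Real.log q₀ := by
    rw [hW, Finset.sum_erase_add _ _ hq0]
    conv_lhs => rw [← Nat.prod_primeFactors_of_squarefree hsq]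
    rw [Nat.cast_prod, Real.log_prod (fun q h => by exact_mod_cast (hpos q h).ne')]
  have hlogle : Real.log a ≤ 3 * ((1 + 1 / 10 ^ 6) * Real.log N) := by
    have ha0 : (0 : ℝ) < a := by
      have : 0 < a := by omega
      exact_mod_cast this
    have h1 : (a : ℝ) ≤ ((N : ℝ) + 1) ^ 3 := by exact_mod_cast ha2
    have h2 := Real.log_le_log ha0 h1
    rw [Real.log_pow] at h2
    push_cast at h2
    linarith
  obtain ⟨s, hs⟩ : ∃ s, #a.primeFactors = s + 1 + 1 := ⟨#a.primeFactors - 2, by omega⟩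
  have h4 : 3 ≤ s := by omega
  have hWc : #W = s + 1 := by
    rw [hW, Finset.card_erase_of_mem hq0, hs]
    omega
  have hsum : ∀ V : Finset ℕ, V ⊆ W → (#V : ℝ) * (ay * Real.log N) ≤ ∑ q ∈ V, Real.log q := by
    intro V hV
    rw [← nsmul_eq_mul]
    exact Finset.card_nsmul_le_sum _ _ _ fun q h => hlq q (hV h)
  have hs8 : s ≤ 8 := by
    have h1 := hsum W (Finset.Subset.refl _)
    rw [hWc] at h1
    have h2 : ((s + 1 : ℕ) : ℝ) * (ay * Real.log N) + az * Real.log N ≤ 3 * ((1 + 1 / 10 ^ 6) * Real.log N) := by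
      linarith
    have h3 : (((s + 1 : ℕ) : ℝ) * ay + az) * Real.log N ≤ (3 * (1 + 1 / 10 ^ 6)) * Real.log N := by linarith
    have h5 := le_of_mul_le_mul_right h3 hL
    rw [hay, haz] at h5
    by_contra hcon
    have h6 : (10 : ℝ) ≤ ((s + 1 : ℕ) : ℝ) := by
      have : 10 ≤ s + 1 := by omega
      exact_mod_cast this
    nlinarith
  have hce100 : ∀ q ∈ W, 100 ≤ CM0_ce N q := by
    intro q h
    unfold CM0_ce
    rw [Nat.le_floor_iff (by
      have := Real.log_nonneg (show (1 : ℝ) ≤ q by exact_mod_cast hone q (hWS h)); positivity)]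
    rw [le_div_iff₀ (by positivity)]
    have h1 := hlq q h
    rw [hay] at h1
    push_cast
    nlinarith
  have hce481 : ∀ q ∈ W, Real.log q < 3 / 2 * Real.log N → CM0_ce N q < 481 := by
    intro q h h1
    unfold CM0_ce
    rw [Nat.floor_lt (by
      have := Real.log_nonneg (show (1 : ℝ) ≤ q by exact_mod_cast hone q (hWS h)); positivity)]
    rw [div_lt_iff₀ (by positivity)]
    push_cast
    linarith
  have hc0 : 30 ≤ CM0_ce N q₀ ∧ CM0_ce N q₀ < 101 := by
    have hnn := Real.log_nonneg (show (1 : ℝ) ≤ q₀ by exact_mod_cast hone q₀ hq0)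
    constructor
    · unfold CM0_ce
      rw [Nat.le_floor_iff (by positivity), le_div_iff₀ (by positivity)]
      rw [haz] at hl0
      push_cast
      nlinarith
    · unfold CM0_ce
      rw [Nat.floor_lt (by positivity), div_lt_iff₀ (by positivity)]
      rw [hay] at hl1
      push_cast
      nlinarith
  by_cases hbig : ∃ P ∈ W, 3 / 2 * Real.log N ≤ Real.log P
  · obtain ⟨P, hP, hPb⟩ := hbig
    set U := W.erase P with hU
    have hUW : U ⊆ W := Finset.erase_subset _ _
    have hUc : #U = s := by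
      rw [hU, Finset.card_erase_of_mem hP, hWc]
      omega
    have hUsum : ∑ q ∈ U, Real.log q + Real.log P = ∑ q ∈ W, Real.log q := by
      rw [hU]
      exact Finset.sum_erase_add _ _ hP
    have hsmall : ∀ q ∈ U, Real.log q < 3 / 2 * Real.log N := by
      intro q h
      have h1 : ∑ q ∈ U.erase q, Real.log q + Real.log q = ∑ q ∈ U, Real.log q :=
        Finset.sum_erase_add _ _ h
      have h2 := hsum (U.erase q) ((Finset.erase_subset _ _).trans hUW)
      have h3 : (2 : ℝ) ≤ (#(U.erase q) : ℝ) := by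
        have : 2 ≤ #(U.erase q) := by
          rw [Finset.card_erase_of_mem h, hUc]
          omega
        exact_mod_cast this
      have h5 : 2 * (ay * Real.log N) ≤ (#(U.erase q) : ℝ) * (ay * Real.log N) := by
        refine mul_le_mul_of_nonneg_right h3 ?_
        rw [hay]
        positivity
      rw [hay] at h5
      rw [hay] at h2
      rw [haz] at hl0
      nlinarith
    have hσ : ∀ e : Fin s ↪ U, ∑ i, CM0_ce N (CM1_G s hq0 hUW e i : ℕ) ≤ 481 := by
      intro e
      refine CM0_sig N (s + 1) hN2 (fun i => (CM1_G s hq0 hUW e i : ℕ)) (481 + 1 / 2)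
        (fun i => hone _ (CM1_G s hq0 hUW e i).2) ?_ 481 (by norm_num)
      have h1 : ∑ i, Real.log ((e i : ℕ) : ℝ) ≤ ∑ q ∈ U, Real.log q := by
        have hinj : Function.Injective fun i => (e i : ℕ) := fun i i' h => e.injective (Subtype.ext h)
        have h2 : ∑ i, Real.log ((e i : ℕ) : ℝ) = ∑ q ∈ univ.image fun i => (e i : ℕ), Real.log q := by
          rw [Finset.sum_image (fun i _ i' _ h => hinj h)]
        rw [h2]
        refine Finset.sum_le_sum_of_subset_of_nonneg ?_ ?_
        · intro q hq'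
          obtain ⟨i, _, rfl⟩ := Finset.mem_image.mp hq'
          exact (e i).2
        · intro q hq' _
          exact Real.log_nonneg (by exact_mod_cast hone q (hWS (hUW hq')))
      rw [Fin.sum_univ_succ]
      have h3 : ∑ i : Fin s, Real.log ((CM1_G s hq0 hUW e i.succ : ℕ) : ℝ) = ∑ i, Real.log ((e i : ℕ) : ℝ) := rfl
      have h5 : Real.log ((CM1_G s hq0 hUW e 0 : ℕ) : ℝ) = Real.log q₀ := rfl
      rw [h3, h5]
      linarith
    have hcard := CM1_count N a s q₀ hN2 ha1 hsq hs h4 hs8 hq0 U hUW (1 / 2 / (s.factorial : ℝ)) hc0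
      (fun q h => ⟨hce100 q (hUW h), hce481 q (hUW h) (hsmall q h)⟩) (fun e => ⟨(hσ e).trans (by norm_num), by
        unfold om
        rw [if_pos rfl, if_pos (hσ e)]
        exact le_refl _⟩)
    have hE : Fintype.card (Fin s ↪ U) = s.factorial := by
      rw [Fintype.card_embedding_eq, Fintype.card_fin, Fintype.card_coe, hUc, Nat.descFactorial_self]
    rw [hE] at hcard
    have hf : (0 : ℝ) < (s.factorial : ℝ) := by exact_mod_cast s.factorial_pos
    have h7 : (s.factorial : ℝ) * (1 / 2 / (s.factorial : ℝ)) = 1 / 2 := by field_simp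
    rwa [h7] at hcard
  · push Not at hbig
    have hσ : ∀ e : Fin s ↪ W, ∑ i, CM0_ce N (CM1_G s hq0 (Finset.Subset.refl W) e i : ℕ) ≤ 861 := by
      intro e
      obtain ⟨P, hP, hPe⟩ := CM0_rem a (s + 1) hsq hs a.primeFactors (Finset.Subset.refl _)
        (CM1_G s hq0 (Finset.Subset.refl W) e)
      refine CM0_sig N (s + 1) hN2 (fun i => (CM1_G s hq0 (Finset.Subset.refl W) e i : ℕ)) (861 + 995 / 1000)
        (fun i => hone _ (CM1_G s hq0 (Finset.Subset.refl W) e i).2) ?_ 861 (by norm_num)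
      have h1 : Real.log a = ∑ i, Real.log ((CM1_G s hq0 (Finset.Subset.refl W) e i : ℕ) : ℝ) + Real.log P := by
        have h2 : Real.log a = Real.log (((∏ i, (CM1_G s hq0 (Finset.Subset.refl W) e i : ℕ)) * P : ℕ) : ℝ) :=
          congrArg (fun z : ℕ => Real.log (z : ℝ)) hPe
        rw [h2, Nat.cast_mul, Nat.cast_prod, Real.log_mul
          (Finset.prod_ne_zero_iff.mpr fun i _ => by
            exact_mod_cast (hpos _ (CM1_G s hq0 (Finset.Subset.refl W) e i).2).ne')
          (by exact_mod_cast (hpos P hP).ne')]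
        rw [Real.log_prod (fun i _ => by
          exact_mod_cast (hpos _ (CM1_G s hq0 (Finset.Subset.refl W) e i).2).ne')]
      have hPne : P ≠ q₀ := by
        intro hPq
        have hdvd : q₀ * q₀ ∣ a := by
          rw [hPe, hPq]
          refine Nat.mul_dvd_mul ?_ (dvd_refl _)
          exact Finset.dvd_prod_of_mem (fun i => (CM1_G s hq0 (Finset.Subset.refl W) e i : ℕ))
            (Finset.mem_univ (0 : Fin (s + 1)))
        have h5 := hsq q₀ hdvd
        have h6 := (Nat.prime_of_mem_primeFactors hq0).one_lt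
        rw [Nat.isUnit_iff] at h5
        omega
      have h2 := hlq P (Finset.mem_erase.mpr ⟨hPne, hP⟩)
      rw [hay] at h2
      linarith
    have hcard := CM1_count N a s q₀ hN2 ha1 hsq hs h4 hs8 hq0 W (Finset.Subset.refl W)
      (1 / 2 / ((s + 1).factorial : ℝ)) hc0
      (fun q h => ⟨hce100 q h, hce481 q h (hbig q h)⟩) (fun e => ⟨hσ e, by
        unfold om
        rw [if_pos rfl]
        split_ifs
        · apply div_le_div_of_nonneg_left (by norm_num) (by exact_mod_cast s.factorial_pos)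
          exact_mod_cast Nat.factorial_le (Nat.le_succ s)
        · exact le_refl _⟩)
    have hE : Fintype.card (Fin s ↪ W) = (s + 1).factorial := by
      rw [Fintype.card_embedding_eq, Fintype.card_fin, Fintype.card_coe, hWc]
      have h1 := Nat.descFactorial_succ (s + 1) s
      rw [Nat.descFactorial_self] at h1
      rw [h1]
      simp
    rw [hE] at hcard
    have hf : (0 : ℝ) < ((s + 1).factorial : ℝ) := by exact_mod_cast (s + 1).factorial_pos
    have h7 : ((s + 1).factorial : ℝ) * (1 / 2 / ((s + 1).factorial : ℝ)) = 1 / 2 := by field_simp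
    rwa [h7] at hcard

end Pool.Agent.EC
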