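import Pool.Agent.helper26.EC.SpecE

/-! # Project EC (MP_5628fe_nt), row CRR -/

set_option autoImplicit false

namespace Pool.Agent.EC

open Finset ArithmeticFunction
open Pool.Agent.CH (Win rgh dl eU Mo ClP ClB)
open Pool.Agent.CHS (PB WUp)

/-- one weighted sum -/
private noncomputable def CRR_X (P : Finset ℕ) (ξ : Finset ℕ → ℝ) : ℝ :=
  ∑ D ∈ P.powerset, ξ D * ∏ p ∈ D, 1 / ((p : ℝ) - 1)

/-- the sum over the disjoint pairs -/
private noncomputable def CRR_L (P : Finset ℕ) (ξ η : Finset ℕ → ℝ) : ℝ :=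
  ∑ D ∈ P.powerset, ∑ E ∈ P.powerset,
    if Disjoint D E then ξ D * η E / ((∏ p ∈ D, (p : ℝ)) * ∏ p ∈ E, (p : ℝ)) else 0

/-- the hypothesis -/
private def CRR_N (P : Finset ℕ) (ξ : Finset ℕ → ℝ) : Prop := ∀ A ⊆ P, 0 ≤ ∑ D ∈ A.powerset, ξ D

private theorem CRR_N_sub {P : Finset ℕ} {q : ℕ} {ξ : Finset ℕ → ℝ} (h : CRR_N (insert q P) ξ) : CRR_N P ξ :=
  fun A hA => h A (hA.trans (subset_insert q P))

private theorem CRR_N_add {P : Finset ℕ} {q : ℕ} (hq : q ∉ P) {ξ : Finset ℕ → ℝ} (h : CRR_N (insert q P) ξ) :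
    CRR_N P (fun D => ξ D + ξ (insert q D)) := by
  intro A hA
  have hqA : q ∉ A := fun h' => hq (hA h')
  have h1 := h (insert q A) (insert_subset_insert q hA)
  rw [sum_powerset_insert hqA] at h1
  rw [sum_add_distrib]
  exact h1

private theorem CRR_X_insert {P : Finset ℕ} {q : ℕ} (hq : q ∉ P) (hq3 : 3 ≤ q) (ξ : Finset ℕ → ℝ) :
    CRR_X (insert q P) ξ = (((q : ℝ) - 2) * CRR_X P ξ + CRR_X P (fun D => ξ D + ξ (insert q D))) / ((q : ℝ) - 1) := by
  have hq' : (3 : ℝ) ≤ q := by exact_mod_cast hq3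
  have hq1 : (q : ℝ) - 1 ≠ 0 := by linarith
  have h1 : CRR_X P (fun D => ξ D + ξ (insert q D)) = CRR_X P ξ + CRR_X P (fun D => ξ (insert q D)) := by
    unfold CRR_X
    rw [← sum_add_distrib]
    exact sum_congr rfl fun D _ => by ring
  have h2 : CRR_X (insert q P) ξ = CRR_X P ξ + 1 / ((q : ℝ) - 1) * CRR_X P (fun D => ξ (insert q D)) := by
    unfold CRR_X
    rw [sum_powerset_insert hq, mul_sum]
    congr 1
    refine sum_congr rfl fun D hD => ?_
    have hqD : q ∉ D := fun h => hq (mem_powerset.1 hD h)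
    rw [prod_insert hqD]
    ring
  rw [h1, h2]
  field_simp
  ring

private theorem CRR_X_nonneg (P : Finset ℕ) : (∀ p ∈ P, 3 ≤ p) → ∀ ξ : Finset ℕ → ℝ, CRR_N P ξ → 0 ≤ CRR_X P ξ := by
  classical
  induction P using Finset.induction_on with
  | empty =>
    intro _ ξ h
    have h1 := h ∅ (Subset.refl _)
    unfold CRR_X
    simpa using h1
  | insert q P hq ih =>
    intro h3 ξ h
    have hq3 := h3 q (mem_insert_self q P)
    have hq' : (3 : ℝ) ≤ q := by exact_mod_cast hq3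
    have h3' : ∀ p ∈ P, 3 ≤ p := fun p hp => h3 p (mem_insert_of_mem hp)
    rw [CRR_X_insert hq hq3]
    have h4 := ih h3' ξ (CRR_N_sub h)
    have h5 := ih h3' _ (CRR_N_add hq h)
    apply div_nonneg _ (by linarith)
    have h6 : 0 ≤ ((q : ℝ) - 2) * CRR_X P ξ := mul_nonneg (by linarith) h4
    linarith

private theorem CRR_L_add_left (P : Finset ℕ) (ξ ξ' η : Finset ℕ → ℝ) :
    CRR_L P (fun D => ξ D + ξ' D) η = CRR_L P ξ η + CRR_L P ξ' η := by
  unfold CRR_L
  rw [← sum_add_distrib]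
  refine sum_congr rfl fun D _ => ?_
  rw [← sum_add_distrib]
  refine sum_congr rfl fun E _ => ?_
  split_ifs
  · ring
  · ring

private theorem CRR_L_add_right (P : Finset ℕ) (ξ η η' : Finset ℕ → ℝ) :
    CRR_L P ξ (fun D => η D + η' D) = CRR_L P ξ η + CRR_L P ξ η' := by
  unfold CRR_L
  rw [← sum_add_distrib]
  refine sum_congr rfl fun D _ => ?_
  rw [← sum_add_distrib]
  refine sum_congr rfl fun E _ => ?_
  split_ifs
  · ring
  · ring

private theorem CRR_L_insert {P : Finset ℕ} {q : ℕ} (hq : q ∉ P) (hq3 : 3 ≤ q) (ξ η : Finset ℕ → ℝ) :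
    CRR_L (insert q P) ξ η = (1 - 2 / (q : ℝ)) * CRR_L P ξ η +
      1 / (q : ℝ) * CRR_L P (fun D => ξ D + ξ (insert q D)) η +
      1 / (q : ℝ) * CRR_L P ξ (fun D => η D + η (insert q D)) := by
  have hq' : (3 : ℝ) ≤ q := by exact_mod_cast hq3
  have hq0 : (q : ℝ) ≠ 0 := by linarith
  have hmain : CRR_L (insert q P) ξ η = CRR_L P ξ η + 1 / (q : ℝ) * CRR_L P (fun D => ξ (insert q D)) η +
      1 / (q : ℝ) * CRR_L P ξ (fun D => η (insert q D)) := by
    unfold CRR_L
    rw [sum_powerset_insert hq]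
    have e1 : ∀ D ∈ P.powerset, ∑ E ∈ (insert q P).powerset,
        (if Disjoint D E then ξ D * η E / ((∏ p ∈ D, (p : ℝ)) * ∏ p ∈ E, (p : ℝ)) else 0) =
        ∑ E ∈ P.powerset, (if Disjoint D E then ξ D * η E / ((∏ p ∈ D, (p : ℝ)) * ∏ p ∈ E, (p : ℝ)) else 0) +
        1 / (q : ℝ) * ∑ E ∈ P.powerset,
          (if Disjoint D E then ξ D * η (insert q E) / ((∏ p ∈ D, (p : ℝ)) * ∏ p ∈ E, (p : ℝ)) else 0) := by
      intro D hD
      have hqD : q ∉ D := fun h => hq (mem_powerset.1 hD h)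
      rw [sum_powerset_insert hq, mul_sum]
      congr 1
      refine sum_congr rfl fun E hE => ?_
      have hqE : q ∉ E := fun h => hq (mem_powerset.1 hE h)
      have hd : Disjoint D (insert q E) ↔ Disjoint D E := by
        rw [disjoint_insert_right]
        exact ⟨fun h => h.2, fun h => ⟨hqD, h⟩⟩
      by_cases h : Disjoint D E
      · rw [if_pos (hd.2 h), if_pos h, prod_insert hqE]
        field_simp
      · rw [if_neg (fun h' => h (hd.1 h')), if_neg h, mul_zero]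
    have e2 : ∀ D ∈ P.powerset, ∑ E ∈ (insert q P).powerset,
        (if Disjoint (insert q D) E then ξ (insert q D) * η E / ((∏ p ∈ insert q D, (p : ℝ)) * ∏ p ∈ E, (p : ℝ)) else 0) =
        1 / (q : ℝ) * ∑ E ∈ P.powerset,
          (if Disjoint D E then ξ (insert q D) * η E / ((∏ p ∈ D, (p : ℝ)) * ∏ p ∈ E, (p : ℝ)) else 0) := by
      intro D hD
      have hqD : q ∉ D := fun h => hq (mem_powerset.1 hD h)
      rw [sum_powerset_insert hq, mul_sum]
      have e3 : ∑ E ∈ P.powerset, (if Disjoint (insert q D) (insert q E) then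
          ξ (insert q D) * η (insert q E) / ((∏ p ∈ insert q D, (p : ℝ)) * ∏ p ∈ insert q E, (p : ℝ)) else 0) = 0 := by
        refine sum_eq_zero fun E _ => if_neg ?_
        intro h
        rw [disjoint_insert_left] at h
        exact h.1 (mem_insert_self q E)
      rw [e3, add_zero]
      refine sum_congr rfl fun E hE => ?_
      have hqE : q ∉ E := fun h => hq (mem_powerset.1 hE h)
      have hd : Disjoint (insert q D) E ↔ Disjoint D E := by
        rw [disjoint_insert_left]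
        exact ⟨fun h => h.2, fun h => ⟨hqE, h⟩⟩
      by_cases h : Disjoint D E
      · rw [if_pos (hd.2 h), if_pos h, prod_insert hqD]
        field_simp
      · rw [if_neg (fun h' => h (hd.1 h')), if_neg h, mul_zero]
    rw [sum_congr rfl e1, sum_congr rfl e2, sum_add_distrib, ← mul_sum, ← mul_sum]
    ring
  rw [hmain, CRR_L_add_left P ξ (fun D => ξ (insert q D)) η, CRR_L_add_right P ξ η (fun D => η (insert q D))]
  field_simp
  ring

private theorem CRR_main (P : Finset ℕ) : (∀ p ∈ P, 3 ≤ p) → ∀ ξ η : Finset ℕ → ℝ, CRR_N P ξ → CRR_N P η →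
    CRR_L P ξ η ≤ (∏ p ∈ P, ((p : ℝ) - 1) ^ 2 / (p * (p - 2))) * (CRR_X P ξ * CRR_X P η) := by
  classical
  induction P using Finset.induction_on with
  | empty =>
    intro _ ξ η _ _
    unfold CRR_L CRR_X
    simp
  | insert q P hq ih =>
    intro h3 ξ η hξ hη
    have hq3 := h3 q (mem_insert_self q P)
    have hq' : (3 : ℝ) ≤ q := by exact_mod_cast hq3
    have h3' : ∀ p ∈ P, 3 ≤ p := fun p hp => h3 p (mem_insert_of_mem hp)
    have a1 := ih h3' ξ η (CRR_N_sub hξ) (CRR_N_sub hη)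
    have a2 := ih h3' _ η (CRR_N_add hq hξ) (CRR_N_sub hη)
    have a3 := ih h3' ξ _ (CRR_N_sub hξ) (CRR_N_add hq hη)
    have u0 := CRR_X_nonneg P h3' ξ (CRR_N_sub hξ)
    have u1 := CRR_X_nonneg P h3' _ (CRR_N_add hq hξ)
    have v0 := CRR_X_nonneg P h3' η (CRR_N_sub hη)
    have v1 := CRR_X_nonneg P h3' _ (CRR_N_add hq hη)
    rw [CRR_L_insert hq hq3, CRR_X_insert hq hq3, CRR_X_insert hq hq3, prod_insert hq]
    set u := CRR_X P ξ with hu
    set u' := CRR_X P (fun D => ξ D + ξ (insert q D)) with hu'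
    set v := CRR_X P η with hv
    set v' := CRR_X P (fun D => η D + η (insert q D)) with hv'
    set c := ∏ p ∈ P, ((p : ℝ) - 1) ^ 2 / (p * (p - 2)) with hc
    have hc0 : 0 ≤ c := prod_nonneg fun p hp => by
      have : (3 : ℝ) ≤ p := by exact_mod_cast h3' p hp
      have h1 : 0 ≤ (p : ℝ) * (p - 2) := mul_nonneg (by linarith) (by linarith)
      positivity
    have hq0 : (0 : ℝ) < q := by linarith
    have b1 : 0 ≤ 1 - 2 / (q : ℝ) := by
      rw [sub_nonneg, div_le_one hq0]; linarith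
    have b2 : 0 ≤ 1 / (q : ℝ) := by positivity
    have c1 := mul_le_mul_of_nonneg_left a1 b1
    have c2 := mul_le_mul_of_nonneg_left a2 b2
    have c3 := mul_le_mul_of_nonneg_left a3 b2
    have e1 : ((q : ℝ) - 1) ^ 2 / (q * (q - 2)) * c *
        ((((q : ℝ) - 2) * u + u') / ((q : ℝ) - 1) * ((((q : ℝ) - 2) * v + v') / ((q : ℝ) - 1))) =
        (1 - 2 / (q : ℝ)) * (c * (u * v)) + 1 / (q : ℝ) * (c * (u' * v)) + 1 / (q : ℝ) * (c * (u * v')) +
          c * (u' * v') / (q * (q - 2)) := by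
      have h4 : (q : ℝ) - 1 ≠ 0 := by linarith
      have h5 : (q : ℝ) - 2 ≠ 0 := by linarith
      field_simp
      ring
    rw [e1]
    have e2 : 0 ≤ c * (u' * v') / ((q : ℝ) * (q - 2)) := by
      have h1 : 0 ≤ (q : ℝ) * (q - 2) := mul_nonneg (by linarith) (by linarith)
      positivity
    linarith

private theorem CRR_tel (M : ℕ) (hM : 2 ≤ M) :
    ∏ n ∈ Icc 3 M, ((n : ℝ) - 1) ^ 2 / (n * (n - 2)) = 2 * ((M : ℝ) - 1) / M := by
  induction M, hM using Nat.le_induction with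
  | base => norm_num
  | succ M hM ih =>
    rw [prod_Icc_succ_top (by omega), ih]
    have hM' : (2 : ℝ) ≤ M := by exact_mod_cast hM
    have h1 : (M : ℝ) - 1 ≠ 0 := by linarith
    have h2 : (M : ℝ) ≠ 0 := by linarith
    have h3 : (M : ℝ) + 1 ≠ 0 := by linarith
    push_cast
    have h4 : (M : ℝ) + 1 - 2 = M - 1 := by ring
    have h5 : (M : ℝ) + 1 - 1 = M := by ring
    rw [h4, h5]
    field_simp

theorem CRR : CRR_stmt := by
  classical
  refine ⟨?_, ?_⟩
  · intro P ξ η h3 hξ hη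
    have h := CRR_main P h3 ξ η hξ hη
    unfold CRR_L CRR_X at h
    rw [sum_filter, sum_product]
    exact h
  · intro P h3
    have hsub : P ⊆ Icc 3 (P.sup id + 2) := by
      intro p hp
      rw [mem_Icc]
      have : p ≤ P.sup id := Finset.le_sup (f := id) hp
      exact ⟨h3 p hp, by omega⟩
    have hge : ∀ n ∈ Icc 3 (P.sup id + 2), 1 ≤ ((n : ℝ) - 1) ^ 2 / (n * (n - 2)) := by
      intro n hn
      have hn3 : (3 : ℝ) ≤ n := by exact_mod_cast (mem_Icc.1 hn).1
      rw [le_div_iff₀ (mul_pos (by linarith) (by linarith))]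
      nlinarith
    have h1 : ∏ p ∈ P, ((p : ℝ) - 1) ^ 2 / (p * (p - 2)) ≤
        ∏ n ∈ Icc 3 (P.sup id + 2), ((n : ℝ) - 1) ^ 2 / (n * (n - 2)) := by
      rw [← prod_sdiff hsub]
      have h2 : (1 : ℝ) ≤ ∏ n ∈ Icc 3 (P.sup id + 2) \ P, ((n : ℝ) - 1) ^ 2 / (n * (n - 2)) := by
        calc (1 : ℝ) = ∏ _n ∈ Icc 3 (P.sup id + 2) \ P, (1 : ℝ) := by simp
          _ ≤ _ := prod_le_prod (fun _ _ => zero_le_one) fun n hn => hge n (mem_sdiff.1 hn).1
      have h3 : 0 ≤ ∏ p ∈ P, ((p : ℝ) - 1) ^ 2 / (p * (p - 2)) :=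
        prod_nonneg fun p hp => zero_le_one.trans (hge p (hsub hp))
      nlinarith
    refine h1.trans ?_
    rw [CRR_tel _ (by omega)]
    have h2 : (0 : ℝ) < ((P.sup id + 2 : ℕ) : ℝ) := by positivity
    rw [div_le_iff₀ h2]
    linarith

end Pool.Agent.EC
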