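import Pool.Agent.helper26.EC.SpecE
import Pool.Agent.helper70.GD.BV

/-! # Project EC (MP_5628fe_nt), row GVT -/

set_option autoImplicit false

namespace Pool.Agent.EC

open Finset ArithmeticFunction
open Pool.Agent.CH (Win rgh dl eU Mo ClP ClB)
open Pool.Agent.CHS (PB WUp)
open GD (kp ks)

private lemma GVT_coprime (r : ℕ → ℕ) (hr : ClB r) (m : ℕ) (hm : 0 < m) (h30 : Nat.Coprime m 30) :
    Nat.Coprime (r m) (30 * m) := by
  obtain ⟨h1, h2⟩ := hr m hm h30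
  refine Nat.Coprime.mul_right ?_ ?_
  · have h3 : Nat.gcd (r m) 30 = Nat.gcd 7 30 := h1.gcd_eq
    rw [Nat.Coprime, h3]
    norm_num
  · have h3 : Nat.gcd (r m) m = Nat.gcd 6 m := h2.gcd_eq
    rw [Nat.Coprime, h3]
    have h4 : Nat.Coprime m 6 := Nat.Coprime.coprime_dvd_right (by norm_num) h30
    exact h4.symm

/-- the case `ε < 1/2` -/
private theorem GVT_main (hTLF : TLF_stmt) (hBIM : BIM_stmt) (hKKD : KKD_stmt) (hSCT : SCT_stmt) (r : ℕ)
    (a b : Fin r → ℝ) (hab : AdT a b) (δ : ℝ) (hδ : 0 < δ) (hG : GdT δ a b) (ε : ℝ) (A : ℕ) (hε : 0 < ε)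
    (hε2 : ε < 1 / 2) :
    ∃ N₀ : ℕ, ∀ N : ℕ, N₀ ≤ N → ∀ r' : ℕ → ℕ, ClB r' →
    ∑ m ∈ Mo ((N : ℝ) ^ (1 / 2 - ε)), |∑ j ∈ Win N with j ≡ r' m [MOD 30 * m], TL N a b j * fN N j -
      1 / (Nat.totient (30 * m) : ℝ) * ∑ j ∈ Win N, TL N a b j * fN N j| ≤ (N : ℝ) ^ 2 / Real.log N ^ A := by
  obtain ⟨N₁, H1⟩ := hTLF r a b hab δ hδ hG
  obtain ⟨B, C, N₂, H2⟩ := hBIM ε (A + 2) 4 hε hε2
  obtain ⟨N₃, H3⟩ := hSCT r a b hab (A + 3) (B + 1)
  -- N^(δ/2) ≥ L^C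
  have hlim : ∀ᶠ x : ℝ in Filter.atTop, Real.log x ^ C ≤ x ^ (δ / 2) := by
    have h := (isLittleO_log_rpow_rpow_atTop (C : ℝ) (show (0 : ℝ) < δ / 2 by linarith)).bound
      (show (0 : ℝ) < 1 by norm_num)
    filter_upwards [h, Filter.eventually_ge_atTop (1 : ℝ)] with x hx hx1
    rw [Real.rpow_natCast, Real.norm_eq_abs, Real.norm_eq_abs, one_mul] at hx
    have h1 : 0 ≤ Real.log x := Real.log_nonneg hx1
    rw [abs_of_nonneg (pow_nonneg h1 C), abs_of_nonneg (Real.rpow_nonneg (by linarith) _)] at hx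
    exact hx
  obtain ⟨x₀, hx₀⟩ := Filter.eventually_atTop.1 hlim
  refine ⟨max (max (max N₁ N₂) (max N₃ ⌈x₀⌉₊)) ⌈Real.exp 12⌉₊, ?_⟩
  intro N hN r' hr'
  have hN1 : N₁ ≤ N := (le_max_left _ _).trans ((le_max_left _ _).trans ((le_max_left _ _).trans hN))
  have hN2 : N₂ ≤ N := (le_max_right _ _).trans ((le_max_left _ _).trans ((le_max_left _ _).trans hN))
  have hN3 : N₃ ≤ N := (le_max_left _ _).trans ((le_max_right _ _).trans ((le_max_left _ _).trans hN))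
  have hNx : x₀ ≤ N := (Nat.le_ceil _).trans (by
    exact_mod_cast (le_max_right _ _).trans ((le_max_right _ _).trans ((le_max_left _ _).trans hN)))
  have hNe : Real.exp 12 ≤ N := (Nat.le_ceil _).trans (by exact_mod_cast (le_max_right _ _).trans hN)
  have hNpos : (0 : ℝ) < N := (Real.exp_pos _).trans_le hNe
  have hN0 : 0 < N := by exact_mod_cast hNpos
  have hL : 12 ≤ Real.log N := by
    rw [← Real.log_exp 12]
    exact Real.log_le_log (Real.exp_pos _) hNe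
  have hLC := hx₀ N hNx
  set L := Real.log N with hLdef
  have hL0 : 0 < L := by linarith
  obtain ⟨α, β, hα, hβ, hαβ, hcvl⟩ := H1 N hN1
  set Q := ⌊(N : ℝ) ^ (1 / 2 - ε)⌋₊ with hQ
  have hQN : Q ≤ N := by
    have h5 : (N : ℝ) ^ (1 / 2 - ε) ≤ (N : ℝ) ^ (1 : ℝ) := by
      refine Real.rpow_le_rpow_of_exponent_le ?_ (by linarith)
      exact_mod_cast hN0
    rw [Real.rpow_one] at h5
    exact Nat.floor_le_of_le h5
  set R₀ := ⌈L ^ B⌉₊ with hR₀
  have hR₀1 : 1 ≤ R₀ := Nat.ceil_pos.mpr (by positivity)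
  have hR₀L : L ^ B ≤ (R₀ : ℝ) := Nat.le_ceil _
  have hR₀U : (R₀ : ℝ) ≤ L ^ (B + 1) := by
    have h5 := (Nat.ceil_lt_add_one (by positivity : 0 ≤ L ^ B)).le
    have h6 : (1 : ℝ) ≤ L ^ B := one_le_pow₀ (by linarith)
    have h7 : L ^ (B + 1) = L ^ B * L := pow_succ _ _
    rw [h7]
    nlinarith
  set k := Nat.log 2 (30 * N) + 1 with hk
  have hkX : 30 * N ≤ 2 ^ k * R₀ := by
    have h5 : 30 * N < 2 ^ k := Nat.lt_pow_succ_log_self (by norm_num) (30 * N)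
    have h6 : 2 ^ k ≤ 2 ^ k * R₀ := Nat.le_mul_of_pos_right _ hR₀1
    omega
  have hkL : (k : ℝ) ≤ 3 * L := by
    have h5 := GD.BV_log2 (30 * N) (by omega)
    have h6 : Real.log ((30 * N : ℕ) : ℝ) = Real.log 30 + L := by
      push_cast
      rw [Real.log_mul (by norm_num) hNpos.ne']
    have h7 : Real.log 30 ≤ 4 := by
      have h8 : Real.log 30 ≤ Real.log 32 := Real.log_le_log (by norm_num) (by norm_num)
      have h9 : Real.log 32 = 5 * Real.log 2 := by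
        rw [show (32 : ℝ) = 2 ^ 5 by norm_num, Real.log_pow]
        norm_num
      have h10 := Real.log_two_lt_d9
      linarith
    rw [hk]
    push_cast
    rw [h6] at h5
    linarith
  have hMo : ∀ m ∈ Mo ((N : ℝ) ^ (1 / 2 - ε)), 0 < m ∧ m ≤ Q ∧ Nat.Coprime m 30 := by
    intro m hm
    unfold Mo at hm
    rw [mem_filter, mem_Icc] at hm
    exact ⟨hm.1.1, hm.1.2, hm.2⟩
  -- the hypotheses of BIM
  have hbig : (N : ℝ) * L ^ C ≤ (N : ℝ) ^ (1 + δ / 2) := by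
    rw [Real.rpow_add hNpos, Real.rpow_one]
    exact mul_le_mul_of_nonneg_left hLC hNpos.le
  have hα' : ∀ a, α a ≠ 0 → (N : ℝ) * L ^ C ≤ a := fun a ha => hbig.trans (hα a ha)
  have hβ' : ∀ a, β a ≠ 0 → (N : ℝ) * L ^ C ≤ a := fun a ha => hbig.trans (hβ a ha)
  have hsq : ∀ γ : ℕ → ℝ, (∀ k, |γ k| ≤ L ^ 2) → ∀ Y : ℕ, ∑ a ∈ Ioc 0 Y, γ a ^ 2 ≤ Y * L ^ 4 := by
    intro γ hγ Y
    calc ∑ a ∈ Ioc 0 Y, γ a ^ 2 ≤ ∑ _a ∈ Ioc 0 Y, L ^ 4 := by
          refine sum_le_sum fun a _ => ?_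
          have h5 := hγ a
          have h6 : γ a ^ 2 = |γ a| ^ 2 := (sq_abs _).symm
          rw [h6]
          calc |γ a| ^ 2 ≤ (L ^ 2) ^ 2 := pow_le_pow_left₀ (abs_nonneg _) h5 2
            _ = L ^ 4 := by ring
      _ = Y * L ^ 4 := by rw [sum_const, Nat.card_Ioc, nsmul_eq_mul]; simp
  -- pointwise
  have hpt : ∀ m ∈ Mo ((N : ℝ) ^ (1 / 2 - ε)),
      |∑ j ∈ Win N with j ≡ r' m [MOD 30 * m], TL N a b j * fN N j -
        1 / (Nat.totient (30 * m) : ℝ) * ∑ j ∈ Win N, TL N a b j * fN N j| ≤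
      (1 / (Nat.totient (30 * m) : ℝ)) * ((N : ℝ) ^ 2 / L ^ (A + 3)) +
        ∑ i ∈ range k, |∑ j ∈ Win N, cvl α β j * fN N j * kp (2 ^ i * R₀) (30 * m) (r' m) j| := by
    intro m hm
    obtain ⟨hm0, hmQ, hm30⟩ := hMo m hm
    have hcop := GVT_coprime r' hr' m hm0 hm30
    have h30m : 0 < 30 * m := by omega
    have hle : 30 * m ≤ 30 * N := by
      have := hmQ.trans hQN
      omega
    have hle2 : 30 * m ≤ 64 * N ^ 3 := by
      have h5 : N ≤ N ^ 3 := Nat.le_self_pow (by norm_num) N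
      omega
    have e1 : ∑ j ∈ Win N with j ≡ r' m [MOD 30 * m], TL N a b j * fN N j =
        ∑ j ∈ Win N, TL N a b j * fN N j * ks R₀ (30 * m) (r' m) j +
          ∑ i ∈ range k, ∑ j ∈ Win N, cvl α β j * fN N j * kp (2 ^ i * R₀) (30 * m) (r' m) j := by
      rw [sum_comm, sum_filter, ← sum_add_distrib]
      refine sum_congr rfl fun j hj => ?_
      rw [← mul_sum, ← hKKD (30 * m) (r' m) R₀ k j h30m hcop hR₀1 (hle.trans hkX), hcvl j hj, ← mul_add]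
      unfold KK
      split_ifs
      · ring
      · ring
    rw [e1, add_sub_right_comm]
    refine (abs_add_le _ _).trans (add_le_add ?_ (abs_sum_le_sum_abs _ _))
    exact H3 N hN3 (30 * m) (r' m) R₀ h30m hle2 hcop hR₀1 hR₀U
  refine (sum_le_sum hpt).trans ?_
  rw [sum_add_distrib, ← sum_mul, sum_comm]
  have hA1 : ∑ i ∈ range k, ∑ m ∈ Mo ((N : ℝ) ^ (1 / 2 - ε)),
      |∑ j ∈ Win N, cvl α β j * fN N j * kp (2 ^ i * R₀) (30 * m) (r' m) j| ≤
      3 * L * ((N : ℝ) ^ 2 / L ^ (A + 2)) := by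
    have h5 : ∀ i ∈ range k, ∑ m ∈ Mo ((N : ℝ) ^ (1 / 2 - ε)),
        |∑ j ∈ Win N, cvl α β j * fN N j * kp (2 ^ i * R₀) (30 * m) (r' m) j| ≤
        (N : ℝ) ^ 2 / L ^ (A + 2) := by
      intro i _
      refine H2 N hN2 r' (2 ^ i * R₀) (hR₀L.trans ?_) α β hα' hβ'
        (fun Y _ => hsq α (fun k => (hαβ k).1) Y) (fun Y _ => hsq β (fun k => (hαβ k).2) Y)
      have : R₀ ≤ 2 ^ i * R₀ := Nat.le_mul_of_pos_left _ (by positivity)
      exact_mod_cast this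
    refine (sum_le_sum h5).trans ?_
    rw [sum_const, card_range, nsmul_eq_mul]
    exact mul_le_mul_of_nonneg_right hkL (by positivity)
  have hA2 : ∑ m ∈ Mo ((N : ℝ) ^ (1 / 2 - ε)), 1 / (Nat.totient (30 * m) : ℝ) ≤ 6 * L ^ 2 := by
    have h5 : ∑ m ∈ Mo ((N : ℝ) ^ (1 / 2 - ε)), 1 / (Nat.totient (30 * m) : ℝ) ≤
        ∑ m ∈ Icc 1 Q, 1 / (Nat.totient m : ℝ) := by
      calc ∑ m ∈ Mo ((N : ℝ) ^ (1 / 2 - ε)), 1 / (Nat.totient (30 * m) : ℝ)
          ≤ ∑ m ∈ Mo ((N : ℝ) ^ (1 / 2 - ε)), 1 / (Nat.totient m : ℝ) := by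
            refine sum_le_sum fun m hm => ?_
            obtain ⟨hm0, _, _⟩ := hMo m hm
            have h6 : (0 : ℝ) < Nat.totient m := by exact_mod_cast Nat.totient_pos.mpr hm0
            refine one_div_le_one_div_of_le h6 ?_
            have h7 : Nat.totient m ≤ Nat.totient (30 * m) :=
              Nat.le_of_dvd (Nat.totient_pos.mpr (by omega))
                (Nat.totient_dvd_of_dvd (Nat.dvd_mul_left m 30))
            exact_mod_cast h7
        _ ≤ ∑ m ∈ Icc 1 Q, 1 / (Nat.totient m : ℝ) := by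
            refine sum_le_sum_of_subset_of_nonneg ?_ (fun m _ _ => by positivity)
            intro m hm
            obtain ⟨hm0, hmQ, _⟩ := hMo m hm
            rw [mem_Icc]
            exact ⟨hm0, hmQ⟩
    refine h5.trans ?_
    rcases Nat.eq_zero_or_pos Q with h | h
    · rw [h]
      simp only [Icc_eq_empty_of_lt zero_lt_one, sum_empty]
      positivity
    · refine (GD.BV_sum_inv Q h).trans ?_
      have h6 : Real.log Q ≤ L := Real.log_le_log (by exact_mod_cast h) (by exact_mod_cast hQN)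
      have h7 : 0 ≤ Real.log Q := Real.log_natCast_nonneg Q
      nlinarith
  have hA3 : (∑ m ∈ Mo ((N : ℝ) ^ (1 / 2 - ε)), 1 / (Nat.totient (30 * m) : ℝ)) *
      ((N : ℝ) ^ 2 / L ^ (A + 3)) ≤ 6 * L ^ 2 * ((N : ℝ) ^ 2 / L ^ (A + 3)) :=
    mul_le_mul_of_nonneg_right hA2 (by positivity)
  refine (add_le_add hA3 hA1).trans ?_
  have e2 : 6 * L ^ 2 * ((N : ℝ) ^ 2 / L ^ (A + 3)) = 6 / L * ((N : ℝ) ^ 2 / L ^ A) := by
    rw [pow_add]
    field_simp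
  have e3 : 3 * L * ((N : ℝ) ^ 2 / L ^ (A + 2)) = 3 / L * ((N : ℝ) ^ 2 / L ^ A) := by
    rw [pow_add]
    field_simp
  rw [e2, e3, ← add_mul]
  have h8 : 6 / L + 3 / L ≤ 1 := by
    rw [← add_div, div_le_one hL0]
    linarith
  calc (6 / L + 3 / L) * ((N : ℝ) ^ 2 / L ^ A) ≤ 1 * ((N : ℝ) ^ 2 / L ^ A) :=
        mul_le_mul_of_nonneg_right h8 (by positivity)
    _ = (N : ℝ) ^ 2 / L ^ A := one_mul _

theorem GVT (hTLF : TLF_stmt) (hBIM : BIM_stmt) (hKKD : KKD_stmt) (hSCT : SCT_stmt) : GVT_stmt := by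
  intro r a b hab δ hδ hG ε A hε
  rcases lt_or_ge ε (1 / 2) with h | h
  · exact GVT_main hTLF hBIM hKKD hSCT r a b hab δ hδ hG ε A hε h
  · obtain ⟨N₀, H⟩ := GVT_main hTLF hBIM hKKD hSCT r a b hab δ hδ hG (1 / 4) A (by norm_num) (by norm_num)
    refine ⟨max N₀ 1, ?_⟩
    intro N hN r' hr'
    have hN0 : N₀ ≤ N := (le_max_left _ _).trans hN
    have hN1 : (1 : ℝ) ≤ N := by exact_mod_cast (le_max_right _ _).trans hN
    refine le_trans (sum_le_sum_of_subset_of_nonneg ?_ fun _ _ _ => abs_nonneg _) (H N hN0 r' hr')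
    intro m hm
    unfold Mo at hm ⊢
    rw [mem_filter, mem_Icc] at hm ⊢
    refine ⟨⟨hm.1.1, hm.1.2.trans (Nat.floor_le_floor ?_)⟩, hm.2⟩
    exact Real.rpow_le_rpow_of_exponent_le hN1 (by linarith)

end Pool.Agent.EC
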